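import Pool.Agent.MP_f58063_ag.S.Defs

/-! Endomorphism ring and finite covers of Zariski open subsets of affine space: definitions. -/

open Complex Filter Topology

noncomputable section

namespace Pool.Agent.MP_f58063_ag

/-- the endomorphism ring of the torus `ℂ^g / (ℤ^g + τ ℤ^g)` is `ℤ` -/
def EndZ {g : ℕ} (τ : Mat g) : Prop :=
  ∀ M : (Fin g → ℂ) →ₗ[ℂ] (Fin g → ℂ), Set.MapsTo M (lattice τ) (lattice τ) →
    ∃ n : ℤ, ∀ z, M z = (n : ℂ) • z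

/-- the quotient of `S` by a group `Δ` of integral symplectic matrices is a finite unramified
holomorphic cover of a nonempty Zariski open subset of `ℂ^d` -/
def FinCover {g : ℕ} (S : Set (Mat g)) (d : ℕ) : Prop :=
  ∃ (Δ : Subgroup (Sp g)) (R : MvPolynomial (Fin d) ℂ) (y : Mat g → Fin d → ℂ), R ≠ 0 ∧
    IsCoveringMapOn (S.domRestrict y) {u | MvPolynomial.eval u R ≠ 0} ∧
    (∀ τ ∈ S, MvPolynomial.eval (y τ) R ≠ 0 ∧ AnalyticAt ℂ y τ ∧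
      ∃ σ : (Fin d → ℂ) → Mat g, AnalyticAt ℂ σ (y τ) ∧ ∀ᶠ τ' in 𝓝[S] τ, σ (y τ') = τ') ∧
    (∀ γ ∈ Δ, ∀ τ ∈ S, act γ τ ∈ S ∧ y (act γ τ) = y τ) ∧
    ∀ u, ∃ F : Finset (Mat g), ∀ τ ∈ S, y τ = u → ∃ γ ∈ Δ, act γ τ ∈ F

end Pool.Agent.MP_f58063_ag
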